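import Mathlib

set_option autoImplicit false

/-!
# Many square roots in a group with a large abelian normal subgroup (MP_bf82d2_ag)

If `A₀` is an abelian subgroup of index at most `b` of a finite group `G` and some element
has at least `e |G|` square roots, there is a normal subgroup `A ≤ A₀` of index at most `(b / e)!`
whose elements are inverted by one of these square roots.
-/

namespace Pool.Agent.H81.NF

open Finset

variable {G : Type} [Group G]

/-- The elements of an abelian subgroup which are inverted by `x`. -/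
def invSub (A : Subgroup G) (hab : ∀ a ∈ A, ∀ b ∈ A, a * b = b * a) (x : G) : Subgroup G where
  carrier := {a | a ∈ A ∧ x⁻¹ * a * x = a⁻¹}
  mul_mem' := fun {a b} ha hb => ⟨A.mul_mem ha.1 hb.1, by
    have h1 : x⁻¹ * (a * b) * x = (x⁻¹ * a * x) * (x⁻¹ * b * x) := by group
    rw [h1, ha.2, hb.2, mul_inv_rev]
    exact hab _ (A.inv_mem ha.1) _ (A.inv_mem hb.1)⟩
  one_mem' := ⟨A.one_mem, by simp⟩
  inv_mem' := fun {a} ha => ⟨A.inv_mem ha.1, by
    have h1 : x⁻¹ * a⁻¹ * x = (x⁻¹ * a * x)⁻¹ := by group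
    rw [h1, ha.2]⟩

theorem mem_invSub {A : Subgroup G} {hab : ∀ a ∈ A, ∀ b ∈ A, a * b = b * a} {x a : G} :
    a ∈ invSub A hab x ↔ a ∈ A ∧ x⁻¹ * a * x = a⁻¹ := Iff.rfl

theorem index_normalCore_le [Finite G] (H : Subgroup G) : H.normalCore.index ≤ H.index.factorial := by
  have h : H.normalCore.index ∣ H.index.factorial := by
    rw [Subgroup.normalCore_eq_ker, Subgroup.index_ker, Subgroup.index_eq_card, ← Nat.card_perm]
    exact Subgroup.card_subgroup_dvd_card _
  exact Nat.le_of_dvd (Nat.factorial_pos _) h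

theorem exists_inverted [Fintype G] (A₀ : Subgroup G)
    (hab : ∀ a ∈ A₀, ∀ b ∈ A₀, a * b = b * a) {b : ℕ} (hb : A₀.index ≤ b) {e : ℝ} (he : 0 < e)
    {c : G} (hc : e * Nat.card G ≤ (Nat.card {x : G // x ^ 2 = c} : ℝ)) {m : ℕ}
    (hm : (b : ℝ) / e ≤ m) :
    ∃ A : Subgroup G, A.Normal ∧ A ≤ A₀ ∧ A.index ≤ m.factorial ∧
      ∃ x : G, x ^ 2 = c ∧ ∀ a ∈ A, x * a * x⁻¹ = a⁻¹ := by
  classical
  have hn : (0 : ℝ) < Nat.card G := by
    have : 0 < Nat.card G := Nat.card_pos
    exact_mod_cast this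
  have hA0 : (0 : ℝ) < Nat.card A₀ := by
    have : 0 < Nat.card A₀ := Nat.card_pos
    exact_mod_cast this
  have hidx : (Nat.card A₀ : ℝ) * A₀.index = Nat.card G := by
    exact_mod_cast A₀.card_mul_index
  have hidx0 : (0 : ℝ) < A₀.index := by
    have : 0 < A₀.index := Nat.pos_of_ne_zero Subgroup.FiniteIndex.index_ne_zero
    exact_mod_cast this
  -- a coset with many square roots
  obtain ⟨k, hk⟩ : ∃ k : G ⧸ A₀, e * Nat.card A₀ ≤
      (Nat.card {x : G // x ^ 2 = c ∧ (x : G ⧸ A₀) = k} : ℝ) := by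
    by_contra hno
    push Not at hno
    have h1 : Nat.card {x : G // x ^ 2 = c} =
        ∑ k : G ⧸ A₀, Nat.card {x : G // x ^ 2 = c ∧ (x : G ⧸ A₀) = k} := by
      rw [← Nat.card_sigma]
      exact Nat.card_congr
        { toFun := fun x => ⟨(x.1 : G ⧸ A₀), ⟨x.1, x.2, rfl⟩⟩
          invFun := fun q => ⟨q.2.1, q.2.2.1⟩
          left_inv := fun x => rfl
          right_inv := by
            rintro ⟨k, x, hx, rfl⟩
            rfl }
    have h2 : (Nat.card {x : G // x ^ 2 = c} : ℝ) < ∑ _k : G ⧸ A₀, e * Nat.card A₀ := by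
      rw [h1]
      push_cast
      exact Finset.sum_lt_sum_of_nonempty ⟨((1 : G) : G ⧸ A₀), mem_univ _⟩ fun k _ => hno k
    rw [sum_const, card_univ, ← Nat.card_eq_fintype_card, ← Subgroup.index_eq_card,
      nsmul_eq_mul] at h2
    have h3 : (A₀.index : ℝ) * (e * Nat.card A₀) = e * Nat.card G := by rw [← hidx]; ring
    linarith
  have hpos : 0 < Nat.card {x : G // x ^ 2 = c ∧ (x : G ⧸ A₀) = k} := by
    have h1 : (0 : ℝ) < (Nat.card {x : G // x ^ 2 = c ∧ (x : G ⧸ A₀) = k} : ℝ) :=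
      lt_of_lt_of_le (by positivity) hk
    exact_mod_cast h1
  obtain ⟨⟨x, hx1, hx2⟩⟩ := (Nat.card_pos_iff.1 hpos).1
  -- the square roots in the coset give inverted elements
  have hle : Nat.card {y : G // y ^ 2 = c ∧ (y : G ⧸ A₀) = k} ≤ Nat.card (invSub A₀ hab x) := by
    refine Nat.card_le_card_of_injective
      (fun y => (⟨x⁻¹ * y.1, ?_, ?_⟩ : invSub A₀ hab x)) ?_
    · have h1 : ((x : G) : G ⧸ A₀) = (y.1 : G ⧸ A₀) := hx2.trans y.2.2.symm
      exact QuotientGroup.eq.1 h1
    · have h1 : y.1 * y.1 = x * x := by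
        rw [← pow_two, ← pow_two, y.2.1, hx1]
      have h2 : x⁻¹ * (x⁻¹ * y.1) * x = (y.1)⁻¹ * x := by
        have h3 : x⁻¹ * x⁻¹ = (y.1)⁻¹ * (y.1)⁻¹ := by
          rw [← mul_inv_rev, ← mul_inv_rev, h1]
        calc x⁻¹ * (x⁻¹ * y.1) * x = (x⁻¹ * x⁻¹) * y.1 * x := by group
          _ = (y.1)⁻¹ * x := by rw [h3]; group
      rw [h2]
      group
    · intro y z hyz
      have h1 := congrArg (fun w : invSub A₀ hab x => (w : G)) hyz
      exact Subtype.ext (mul_left_cancel h1)
  have hidx2 : ((invSub A₀ hab x).index : ℝ) ≤ m := by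
    have h1 : (Nat.card (invSub A₀ hab x) : ℝ) * (invSub A₀ hab x).index = Nat.card G := by
      exact_mod_cast (invSub A₀ hab x).card_mul_index
    have h2 : e * Nat.card A₀ ≤ (Nat.card (invSub A₀ hab x) : ℝ) :=
      hk.trans (by exact_mod_cast hle)
    have h3 : (0 : ℝ) ≤ (invSub A₀ hab x).index := Nat.cast_nonneg _
    have h4 : e * Nat.card A₀ * (invSub A₀ hab x).index ≤ Nat.card A₀ * A₀.index := by
      rw [hidx, ← h1]
      exact mul_le_mul_of_nonneg_right h2 h3
    have h5 : e * (invSub A₀ hab x).index ≤ A₀.index := by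
      refine le_of_mul_le_mul_left ?_ hA0
      calc (Nat.card A₀ : ℝ) * (e * (invSub A₀ hab x).index) =
          e * Nat.card A₀ * (invSub A₀ hab x).index := by ring
        _ ≤ _ := h4
    have h6 : (A₀.index : ℝ) ≤ b := by exact_mod_cast hb
    have h7 : ((invSub A₀ hab x).index : ℝ) ≤ b / e := by
      rw [le_div_iff₀ he]
      linarith
    exact h7.trans hm
  refine ⟨(invSub A₀ hab x).normalCore, inferInstance, ?_, ?_, x, hx1, ?_⟩
  · exact (Subgroup.normalCore_le _).trans fun a ha => (mem_invSub.1 ha).1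
  · refine (index_normalCore_le _).trans (Nat.factorial_le ?_)
    exact_mod_cast hidx2
  · intro a ha
    have h1 := (mem_invSub.1 (Subgroup.normalCore_le _ ha)).2
    have h2 : a = x * a⁻¹ * x⁻¹ := by
      rw [← h1]; group
    have h3 := congrArg (fun w => w⁻¹) h2
    simp only [mul_inv_rev, inv_inv] at h3
    rw [h3]; group

end Pool.Agent.H81.NF
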