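import Pool.Agent.H81.NF.Main
import Pool.Agent.H81.NF.Inv
import Pool.Agent.H82.SQ.Cor
import Pool.Agent.H54.SQ.Ten

set_option autoImplicit false

/-!
# The structure of the groups which satisfy the criterion (MP_bf82d2_ag)

If `quadInv s ≤ N - 3` and `G` is not abelian, some power of some `s i` has at least `|G| / 1040`
square roots (if `|G| ≥ 1040`). So the commuting probability of `G` is bounded from below, `G`
has an abelian normal subgroup of bounded index (P. Neumann), and a large part of it is inverted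
by a square root.
-/

namespace Pool.Agent.H81.NF

open Finset Pool.Agent.H82.CO

theorem commProb_ge {G : Type} [Group G] [Fintype G] (c : G)
    (h : 1 / 1040 * (Nat.card G : ℝ) ≤ rt c) : (1 / 1040 ^ 2 : ℝ) ≤ (commProb G : ℝ) := by
  have hn : (0 : ℝ) < Nat.card G := by
    have : 0 < Nat.card G := Nat.card_pos
    exact_mod_cast this
  have h1 := Pool.Agent.H82.SQ.rt_sq_le c
  have h2 : (commProb G : ℝ) = (Nat.card (ConjClasses G) : ℝ) / Nat.card G := by
    rw [commProb_def']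
    push_cast
    rfl
  rw [h2, le_div_iff₀ hn]
  have h3 : (1 / 1040 * (Nat.card G : ℝ)) ^ 2 ≤ rt c ^ 2 := by
    exact pow_le_pow_left₀ (by positivity) h 2
  have h4 : (1 / 1040 ^ 2 : ℝ) * Nat.card G * Nat.card G ≤
      (Nat.card (ConjClasses G) : ℝ) * Nat.card G := by nlinarith
  exact le_of_mul_le_mul_right h4 hn

/-- A finite group which is not abelian contains an element whose square is not `1`. -/
theorem exists_sq_ne_one {G : Type} [Group G] (hna : ∃ a b : G, a * b ≠ b * a) :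
    ∃ x : G, x ^ 2 ≠ 1 := by
  by_contra hno
  push Not at hno
  obtain ⟨a, b, h⟩ := hna
  apply h
  have inv : ∀ x : G, x⁻¹ = x := fun x => by
    rw [inv_eq_iff_mul_eq_one, ← pow_two]; exact hno x
  have h1 := inv (a * b)
  rw [mul_inv_rev, inv, inv] at h1
  exact h1.symm

/-- The group is of dicyclic type up to bounded index: an abelian normal subgroup `A` of bounded
index is inverted by an element `x` with `x ^ 2 ≠ 1`. -/
theorem structure_thm_sq : ∃ B : ℕ, ∀ (G : Type) [Group G] [Fintype G] (N : ℕ) (_hN : 4 ≤ N)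
    (s : Fin N → G) (_hs : ∀ i, s i ≠ 1) (_hna : ∃ a b : G, a * b ≠ b * a)
    (_hprod : (List.ofFn s).prod = 1) (_hgen : Subgroup.closure (Set.range s) = ⊤)
    (_hg : 1 < genus s) (_hd : (quadInv s).re ≤ (N : ℝ) - 3),
    ∃ A : Subgroup G, A.Normal ∧ (∀ a ∈ A, ∀ b ∈ A, a * b = b * a) ∧ A.index ≤ B ∧
      ∃ x : G, x ^ 2 ≠ 1 ∧ ∀ a ∈ A, x * a * x⁻¹ = a⁻¹ := by
  obtain ⟨B4, h4⟩ := neumann_fg 4 (1 / 1040 ^ 2) (by positivity)
  obtain ⟨B5, h5⟩ := neumann_fg 5 (1 / 1040 ^ 2) (by positivity)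
  refine ⟨max 1040 (1040 * max B4 B5).factorial, fun G _ _ N hN s hs hna hprod hgen hg hd => ?_⟩
  by_cases hsmall : Nat.card G ≤ 1040
  · obtain ⟨x, hx⟩ := exists_sq_ne_one hna
    refine ⟨⊥, inferInstance, ?_, ?_, x, hx, ?_⟩
    · intro a ha b hb
      rw [Subgroup.mem_bot.1 ha, Subgroup.mem_bot.1 hb]
    · rw [Subgroup.index_bot]
      exact hsmall.trans (le_max_left _ _)
    · intro a ha
      rw [Subgroup.mem_bot.1 ha]; simp
  push Not at hsmall
  have hn : (1040 : ℝ) < Nat.card G := by exact_mod_cast hsmall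
  have hN5 : N = 4 ∨ N = 5 := by
    by_contra hne
    have h6 : 6 ≤ N := by omega
    have := (bounds s hs h6 hd).2.1
    omega
  have hT : N = 4 → 5 / 1296 * (Nat.card G : ℝ) - 1 ≤ (quadInv s + extInv s).re := by
    intro hN4
    subst hN4
    exact Pool.Agent.H54.SQ.tensor_ge s hs hna hprod hgen hg
  obtain ⟨i, k, hk1, hroot⟩ := Pool.Agent.H82.SQ.many_roots s hs hN hT hd
  have hroot' : 1 / 1040 * (Nat.card G : ℝ) ≤ rt (s i ^ k) := by linarith
  have hcp := commProb_ge _ hroot'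
  obtain ⟨A₀, hA1, hA2, hA3⟩ : ∃ A : Subgroup G, A.Normal ∧
      (∀ a ∈ A, ∀ b ∈ A, a * b = b * a) ∧ A.index ≤ max B4 B5 := by
    rcases hN5 with h | h
    · subst h
      obtain ⟨A, h1, h2, h3⟩ := h4 G s hgen hcp
      exact ⟨A, h1, h2, h3.trans (le_max_left _ _)⟩
    · subst h
      obtain ⟨A, h1, h2, h3⟩ := h5 G s hgen hcp
      exact ⟨A, h1, h2, h3.trans (le_max_right _ _)⟩
  rw [Pool.Agent.H82.SQ.rt_eq_card] at hroot'
  obtain ⟨A, hB1, hB2, hB3, x, hx2, hx⟩ := exists_inverted A₀ hA2 hA3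
    (by norm_num : (0 : ℝ) < 1 / 1040) hroot' (m := 1040 * max B4 B5) (by
      push_cast
      rw [div_le_iff₀ (by norm_num)]
      linarith [show (0 : ℝ) ≤ max (B4 : ℝ) B5 from le_max_of_le_left (Nat.cast_nonneg _)])
  exact ⟨A, hB1, fun a ha b hb => hA2 a (hB2 ha) b (hB2 hb), hB3.trans (le_max_right _ _), x,
    by rw [hx2]; exact hk1, hx⟩

theorem structure_thm : ∃ B : ℕ, ∀ (G : Type) [Group G] [Fintype G] (N : ℕ) (_hN : 4 ≤ N)
    (s : Fin N → G) (_hs : ∀ i, s i ≠ 1) (_hna : ∃ a b : G, a * b ≠ b * a)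
    (_hprod : (List.ofFn s).prod = 1) (_hgen : Subgroup.closure (Set.range s) = ⊤)
    (_hg : 1 < genus s) (_hd : (quadInv s).re ≤ (N : ℝ) - 3),
    ∃ A : Subgroup G, A.Normal ∧ (∀ a ∈ A, ∀ b ∈ A, a * b = b * a) ∧ A.index ≤ B ∧
      ∃ x : G, ∀ a ∈ A, x * a * x⁻¹ = a⁻¹ := by
  obtain ⟨B, hB⟩ := structure_thm_sq
  refine ⟨B, fun G _ _ N hN s hs hna hprod hgen hg hd => ?_⟩
  obtain ⟨A, h1, h2, h3, x, -, hx⟩ := hB G N hN s hs hna hprod hgen hg hd
  exact ⟨A, h1, h2, h3, x, hx⟩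

end Pool.Agent.H81.NF
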