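import Pool.Agent.H81.NF.Struct

set_option autoImplicit false

/-!
# Groups with few generators in which some element has many square roots

If `G` is generated by `N` elements and some `c` in `G` has at least `δ |G|` square roots, `G` has an
abelian normal subgroup of bounded index which is inverted by a square root of `c`.
-/

namespace Pool.Agent.H81.NF

open Finset Pool.Agent.H82.CO

theorem commProb_ge' {G : Type} [Group G] [Fintype G] (c : G) {δ : ℝ} (hδ : 0 < δ)
    (h : δ * (Nat.card G : ℝ) ≤ rt c) : δ ^ 2 ≤ (commProb G : ℝ) := by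
  have hn : (0 : ℝ) < Nat.card G := by
    have : 0 < Nat.card G := Nat.card_pos
    exact_mod_cast this
  have h1 := Pool.Agent.H82.SQ.rt_sq_le c
  have h2 : (commProb G : ℝ) = (Nat.card (ConjClasses G) : ℝ) / Nat.card G := by
    rw [commProb_def']
    push_cast
    rfl
  rw [h2, le_div_iff₀ hn]
  have h3 : (δ * (Nat.card G : ℝ)) ^ 2 ≤ rt c ^ 2 := by
    exact pow_le_pow_left₀ (by positivity) h 2
  have h4 : δ ^ 2 * Nat.card G * Nat.card G ≤
      (Nat.card (ConjClasses G) : ℝ) * Nat.card G := by nlinarith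
  exact le_of_mul_le_mul_right h4 hn

/-- The structure theorem. -/
theorem structure_roots (N : ℕ) (δ : ℝ) (hδ : 0 < δ) : ∃ B : ℕ, ∀ (G : Type) [Group G] [Fintype G]
    (s : Fin N → G) (c : G), Subgroup.closure (Set.range s) = ⊤ →
    δ * (Nat.card G : ℝ) ≤ rt c →
    ∃ A : Subgroup G, A.Normal ∧ (∀ a ∈ A, ∀ b ∈ A, a * b = b * a) ∧ A.index ≤ B ∧
      ∃ x : G, x ^ 2 = c ∧ ∀ a ∈ A, x * a * x⁻¹ = a⁻¹ := by
  obtain ⟨B, hB⟩ := neumann_fg N (δ ^ 2) (by positivity)
  obtain ⟨m, hm⟩ := exists_nat_ge ((B : ℝ) / δ)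
  refine ⟨m.factorial, fun G _ _ s c hgen hroot => ?_⟩
  have hcp := commProb_ge' c hδ hroot
  obtain ⟨A₀, hA1, hA2, hA3⟩ := hB G s hgen hcp
  rw [Pool.Agent.H82.SQ.rt_eq_card] at hroot
  obtain ⟨A, hB1, hB2, hB3, x, hx2, hx⟩ := exists_inverted A₀ hA2 hA3 hδ hroot (m := m) hm
  exact ⟨A, hB1, fun a ha b hb => hA2 a (hB2 ha) b (hB2 hb), hB3, x, hx2, hx⟩

end Pool.Agent.H81.NF
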