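import Mathlib

set_option autoImplicit false

/-!
# Groups with many commuting pairs (P. Neumann's theorem for groups with few generators)

A finite group with `k` generators whose commuting probability is at least `δ` has an abelian normal
subgroup of index at most `B (k, δ)` (MP_bf82d2_ag, note 5883 (9)).
-/

namespace Pool.Agent.H81.NF

open Finset

variable {G : Type} [Group G]

/-- The number of conjugates. -/
noncomputable def D (x : G) : ℕ := (Subgroup.centralizer ({x} : Set G)).index

theorem mem_cent {x y : G} : y ∈ Subgroup.centralizer ({x} : Set G) ↔ x * y = y * x := by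
  rw [Subgroup.mem_centralizer_iff]
  simp

theorem D_one : D (1 : G) = 1 := by
  unfold D
  have : Subgroup.centralizer ({1} : Set G) = ⊤ := by
    ext y; rw [mem_cent]; simp
  rw [this, Subgroup.index_top]

theorem D_inv (x : G) : D x⁻¹ = D x := by
  unfold D
  have : Subgroup.centralizer ({x⁻¹} : Set G) = Subgroup.centralizer ({x} : Set G) := by
    ext y; rw [mem_cent, mem_cent]
    constructor
    · intro h
      have h1 := (show Commute x⁻¹ y from h).inv_left
      rw [inv_inv] at h1
      exact h1
    · intro h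
      exact (show Commute x y from h).inv_left
  rw [this]

theorem D_conj (g x : G) : D (g * x * g⁻¹) = D x := by
  unfold D
  have h : Subgroup.centralizer ({g * x * g⁻¹} : Set G) =
      (Subgroup.centralizer ({x} : Set G)).map (MulAut.conj g).toMonoidHom := by
    ext y
    rw [mem_cent, Subgroup.mem_map]
    constructor
    · intro hy
      refine ⟨g⁻¹ * y * g, ?_, ?_⟩
      · rw [mem_cent]
        have := congrArg (fun z => g⁻¹ * z * g) hy
        simp only [mul_assoc] at this ⊢
        simpa using this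
      · simp [mul_assoc]
    · rintro ⟨z, hz, rfl⟩
      rw [mem_cent] at hz
      simp only [MulEquiv.coe_toMonoidHom, MulAut.conj_apply]
      have := congrArg (fun w => g * w * g⁻¹) hz
      simp only [mul_assoc] at this ⊢
      simpa using this
  rw [h]
  exact Subgroup.index_map_equiv _ (MulAut.conj g)

section
variable [Finite G]

theorem D_pos (x : G) : 0 < D x := Nat.pos_of_ne_zero Subgroup.FiniteIndex.index_ne_zero

theorem index_le_of_le {H K : Subgroup G} (h : H ≤ K) : K.index ≤ H.index :=
  Nat.le_of_dvd (Nat.pos_of_ne_zero Subgroup.FiniteIndex.index_ne_zero)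
    (Subgroup.index_dvd_of_le h)

theorem D_mul (x y : G) : D (x * y) ≤ D x * D y := by
  unfold D
  refine le_trans (index_le_of_le (H := Subgroup.centralizer ({x} : Set G) ⊓
    Subgroup.centralizer ({y} : Set G)) ?_) Subgroup.index_inf_le
  intro z hz
  obtain ⟨h1, h2⟩ := Subgroup.mem_inf.1 hz
  rw [mem_cent] at h1 h2 ⊢
  exact (show Commute x z from h1).mul_left (show Commute y z from h2)

end

section
variable [Fintype G]

/-- The number of commuting pairs. -/
theorem card_comm : Nat.card {p : G × G // Commute p.1 p.2} =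
    ∑ x : G, Nat.card (Subgroup.centralizer ({x} : Set G)) := by
  classical
  let e : {p : G × G // Commute p.1 p.2} ≃ Σ x : G, (Subgroup.centralizer ({x} : Set G)) :=
    { toFun := fun p => ⟨p.1.1, ⟨p.1.2, mem_cent.2 p.2⟩⟩
      invFun := fun q => ⟨(q.1, q.2.1), mem_cent.1 q.2.2⟩
      left_inv := fun p => rfl
      right_inv := fun q => rfl }
  rw [Nat.card_congr e, Nat.card_sigma]

open Classical in
/-- Many elements have few conjugates. -/
theorem many (δ : ℝ) (hδ : 0 < δ) (h : δ ≤ (commProb G : ℝ)) (t : ℕ) (ht : 2 / δ ≤ t) :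
    δ / 2 * Nat.card G ≤ ((univ.filter fun x : G => D x ≤ t).card : ℝ) := by
  have hn : (0 : ℝ) < Nat.card G := by
    have : 0 < Nat.card G := Nat.card_pos
    exact_mod_cast this
  have h1 : (commProb G : ℝ) * (Nat.card G : ℝ) ^ 2 =
      ∑ x : G, (Nat.card (Subgroup.centralizer ({x} : Set G)) : ℝ) := by
    rw [commProb_def]
    push_cast
    rw [card_comm]
    push_cast
    field_simp
  have h2 : ∀ x : G, (Nat.card (Subgroup.centralizer ({x} : Set G)) : ℝ) =
      (Nat.card G : ℝ) / D x := by
    intro x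
    have h3 := (Subgroup.centralizer ({x} : Set G)).card_mul_index
    have h4 : (0 : ℝ) < D x := by exact_mod_cast D_pos x
    rw [eq_div_iff h4.ne']
    unfold D
    exact_mod_cast h3
  have h3 : ∑ x : G, (Nat.card (Subgroup.centralizer ({x} : Set G)) : ℝ) ≤
      ∑ x : G, ((if D x ≤ t then (Nat.card G : ℝ) else 0) + (Nat.card G : ℝ) * (δ / 2)) := by
    refine sum_le_sum fun x _ => ?_
    rw [h2]
    have h4 : (1 : ℝ) ≤ D x := by exact_mod_cast D_pos x
    split_ifs with hx
    · have : (Nat.card G : ℝ) / D x ≤ Nat.card G := div_le_self hn.le h4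
      nlinarith
    · push Not at hx
      have h5 : 2 / δ < D x := lt_of_le_of_lt ht (by exact_mod_cast hx)
      have h6 : 1 / (D x : ℝ) ≤ δ / 2 := by
        rw [div_le_div_iff₀ (by linarith) (by norm_num)]
        rw [div_lt_iff₀ hδ] at h5
        linarith
      calc (Nat.card G : ℝ) / D x = Nat.card G * (1 / D x) := by ring
        _ ≤ Nat.card G * (δ / 2) := mul_le_mul_of_nonneg_left h6 hn.le
        _ = 0 + Nat.card G * (δ / 2) := by ring
  rw [← h1, sum_add_distrib, ← sum_filter, sum_const, sum_const, card_univ,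
    ← Nat.card_eq_fintype_card] at h3
  simp only [nsmul_eq_mul] at h3
  have h4 : δ * (Nat.card G : ℝ) ^ 2 ≤ (commProb G : ℝ) * (Nat.card G : ℝ) ^ 2 :=
    mul_le_mul_of_nonneg_right h (by positivity)
  have h5 : δ / 2 * Nat.card G * Nat.card G ≤
      ((univ.filter fun x : G => D x ≤ t).card : ℝ) * Nat.card G := by nlinarith
  exact le_of_mul_le_mul_right h5 hn

/-- The thresholds. -/
def T (t : ℕ) : ℕ → ℕ
  | 0 => t
  | j + 1 => (T t j * t) ^ 2

theorem T_succ (t j : ℕ) : T t (j + 1) = (T t j * t) ^ 2 := rfl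

theorem T_pos {t : ℕ} (ht : 0 < t) : ∀ j, 0 < T t j
  | 0 => ht
  | j + 1 => by rw [T_succ]; have := T_pos ht j; positivity

theorem T_le_succ {t : ℕ} (ht : 0 < t) (j : ℕ) : T t j ≤ T t (j + 1) := by
  rw [T_succ]
  have h1 := T_pos ht j
  calc T t j ≤ T t j * t := Nat.le_mul_of_pos_right _ ht
    _ ≤ (T t j * t) ^ 2 := Nat.le_self_pow (by norm_num) _

theorem T_mono {t : ℕ} (ht : 0 < t) {i j : ℕ} (hij : i ≤ j) : T t i ≤ T t j :=
  monotone_nat_of_le_succ (T_le_succ ht) hij

open Classical in
/-- Some threshold is closed. -/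
theorem exists_closed {t : ℕ} (ht : 0 < t) {J : ℕ}
    (hJ : (Nat.card G : ℝ) < (J + 1) * ((univ.filter fun x : G => D x ≤ t).card : ℝ)) :
    ∃ j ≤ J, ∀ x : G, D x ≤ T t j ^ 2 → D x ≤ T t j := by
  by_contra hno
  push Not at hno
  have h1 : ∀ j : ℕ, ∃ y : G, j ≤ J → D y ≤ T t j ^ 2 ∧ T t j < D y := by
    intro j
    by_cases hj : j ≤ J
    · obtain ⟨y, hy⟩ := hno j hj
      exact ⟨y, fun _ => hy⟩
    · exact ⟨1, fun h => absurd h hj⟩
  choose y hy using h1
  have hinj : Set.InjOn (fun p : ℕ × G => y p.1 * p.2)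
      ((range (J + 1) ×ˢ (univ.filter fun x : G => D x ≤ t) : Finset (ℕ × G)) : Set (ℕ × G)) := by
    have key : ∀ i j : ℕ, i < j → j ≤ J → ∀ a b : G, D a ≤ t → D b ≤ t →
        y i * a ≠ y j * b := by
      intro i j hij hjJ a b ha hb hab
      have h2 : y j = y i * (a * b⁻¹) := by
        rw [← mul_assoc, hab, mul_inv_cancel_right]
      have h3 : D (y j) ≤ T t (i + 1) := by
        rw [h2, T_succ]
        calc D (y i * (a * b⁻¹)) ≤ D (y i) * D (a * b⁻¹) := D_mul _ _
          _ ≤ D (y i) * (D a * D b⁻¹) := Nat.mul_le_mul_left _ (D_mul _ _)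
          _ ≤ T t i ^ 2 * (t * t) := Nat.mul_le_mul (hy i (by omega)).1
              (Nat.mul_le_mul ha (by rw [D_inv]; exact hb))
          _ = (T t i * t) ^ 2 := by ring
      have h4 : T t (i + 1) ≤ T t j := T_mono ht hij
      have h5 := (hy j hjJ).2
      omega
    rintro ⟨i, a⟩ hia ⟨j, b⟩ hjb hab
    simp only [coe_product, Set.mem_prod, mem_coe, mem_range, mem_filter, mem_univ,
      true_and] at hia hjb hab
    rcases lt_trichotomy i j with h | h | h
    · exact absurd hab (key i j h (by omega) a b hia.2 hjb.2)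
    · subst h
      have := mul_left_cancel hab
      rw [this]
    · exact absurd hab.symm (key j i h (by omega) b a hjb.2 hia.2)
  have h6 := card_le_card_of_injOn (fun p : ℕ × G => y p.1 * p.2)
    (s := range (J + 1) ×ˢ (univ.filter fun x : G => D x ≤ t)) (t := (univ : Finset G))
    (fun _ _ => mem_univ _) hinj
  rw [card_product, card_range, card_univ, ← Nat.card_eq_fintype_card] at h6
  have h7 : (((J + 1) * (univ.filter fun x : G => D x ≤ t).card : ℕ) : ℝ) ≤ Nat.card G := by
    exact_mod_cast h6
  push_cast at h7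
  linarith

end

/-- The subgroup of the elements with at most `m` conjugates, if it is one. -/
def lowSub [Finite G] (m : ℕ) (hm : 0 < m) (h : ∀ x : G, D x ≤ m ^ 2 → D x ≤ m) : Subgroup G where
  carrier := {x | D x ≤ m}
  mul_mem' := fun {a b} ha hb => h _ ((D_mul a b).trans (by
    rw [pow_two]; exact Nat.mul_le_mul ha hb))
  one_mem' := by
    show D (1 : G) ≤ m
    rw [D_one]; exact hm
  inv_mem' := fun {a} ha => by
    show D a⁻¹ ≤ m
    rw [D_inv]; exact ha

theorem mem_lowSub [Finite G] {m : ℕ} {hm : 0 < m} {h : ∀ x : G, D x ≤ m ^ 2 → D x ≤ m} {x : G} :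
    x ∈ lowSub m hm h ↔ D x ≤ m := Iff.rfl

theorem lowSub_normal [Finite G] (m : ℕ) (hm : 0 < m) (h : ∀ x : G, D x ≤ m ^ 2 → D x ≤ m) :
    (lowSub m hm h).Normal :=
  ⟨fun x hx g => by
    rw [mem_lowSub] at hx ⊢
    rw [D_conj]; exact hx⟩

/-- A subgroup with few generators, all of them with few conjugates, has a large centralizer. -/
theorem index_centralizer_le [Finite G] (M : Subgroup G) (m r : ℕ) (hm : 0 < m)
    (hM : ∀ x ∈ M, D x ≤ m) (hr : Group.rank M ≤ r) :
    (Subgroup.centralizer (M : Set G)).index ≤ m ^ r := by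
  obtain ⟨S, hS, hS1⟩ := Group.rank_spec M
  have h1 : (⨅ x : S, Subgroup.centralizer ({((x : M) : G)} : Set G)) ≤
      Subgroup.centralizer (M : Set G) := by
    intro z hz
    rw [Subgroup.mem_iInf] at hz
    rw [Subgroup.mem_centralizer_iff]
    intro w hw
    have h2 : ∀ w' : M, w' ∈ Subgroup.closure (S : Set M) → (w' : G) * z = z * w' := by
      intro w' hw'
      induction hw' using Subgroup.closure_induction with
      | mem x hx => exact mem_cent.1 (hz ⟨x, hx⟩)
      | one => simp
      | mul x y _ _ hx hy =>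
        exact (show Commute (x : G) z from hx).mul_left (show Commute (y : G) z from hy)
      | inv x _ hx => exact (show Commute (x : G) z from hx).inv_left
    exact h2 ⟨w, hw⟩ (by rw [hS1]; exact Subgroup.mem_top _)
  refine (index_le_of_le h1).trans ((Subgroup.index_iInf_le _).trans ?_)
  refine (Finset.prod_le_pow_card (univ : Finset S)
    (fun x : S => (Subgroup.centralizer ({((x : M) : G)} : Set G)).index) m
    fun x _ => hM _ (x : M).2).trans ?_
  rw [card_univ, Fintype.card_coe, hS]
  exact Nat.pow_le_pow_right hm hr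

/-- **P. Neumann's theorem for groups with few generators.** -/
theorem neumann_fg (k : ℕ) (δ : ℝ) (hδ : 0 < δ) :
    ∃ B : ℕ, ∀ (G : Type) [Group G] [Finite G] (s : Fin k → G),
      Subgroup.closure (Set.range s) = ⊤ → δ ≤ (commProb G : ℝ) →
      ∃ A : Subgroup G, A.Normal ∧ (∀ a ∈ A, ∀ b ∈ A, a * b = b * a) ∧ A.index ≤ B := by
  classical
  obtain ⟨t, ht⟩ := exists_nat_ge (2 / δ)
  have ht0 : 0 < t := by
    have h1 : (0 : ℝ) < 2 / δ := by positivity
    have h2 : (0 : ℝ) < t := lt_of_lt_of_le h1 ht
    exact_mod_cast h2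
  refine ⟨t * T t t ^ (t * k), fun G _ _ s hs hc => ?_⟩
  have : Fintype G := Fintype.ofFinite G
  have hn : (0 : ℝ) < Nat.card G := by
    have : 0 < Nat.card G := Nat.card_pos
    exact_mod_cast this
  have hmany := many δ hδ hc t ht
  have hJ : (Nat.card G : ℝ) < (t + 1) * ((univ.filter fun x : G => D x ≤ t).card : ℝ) := by
    have h1 : 1 < (t + 1) * (δ / 2) := by
      rw [div_le_iff₀ hδ] at ht
      linarith
    calc (Nat.card G : ℝ) = 1 * Nat.card G := by ring
      _ < (t + 1) * (δ / 2) * Nat.card G := mul_lt_mul_of_pos_right h1 hn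
      _ = (t + 1) * (δ / 2 * Nat.card G) := by ring
      _ ≤ _ := mul_le_mul_of_nonneg_left hmany (by positivity)
  obtain ⟨j, hj, hcl⟩ := exists_closed ht0 hJ
  set M := lowSub (T t j) (T_pos ht0 j) hcl with hMdef
  have hMn : M.Normal := lowSub_normal _ _ _
  have hMle : ∀ x ∈ M, D x ≤ T t j := fun x hx => hx
  -- the index of `M`
  have hidx : M.index ≤ t := by
    have h1 : (univ.filter fun x : G => D x ≤ t).card ≤ Nat.card M := by
      have h2 : (univ.filter fun x : G => D x ≤ t) ⊆ univ.filter fun x : G => x ∈ M := by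
        intro x hx
        rw [mem_filter] at hx ⊢
        exact ⟨mem_univ _, hx.2.trans (T_mono ht0 (Nat.zero_le j))⟩
      refine (card_le_card h2).trans (le_of_eq ?_)
      rw [Nat.card_eq_fintype_card, Fintype.card_subtype]
    have h3 := M.card_mul_index
    have h4 : (0 : ℝ) < Nat.card M := by
      have : 0 < Nat.card M := Nat.card_pos
      exact_mod_cast this
    have h5 : δ / 2 * Nat.card G ≤ (Nat.card M : ℝ) := hmany.trans (by exact_mod_cast h1)
    have h6 : (Nat.card M : ℝ) * M.index = Nat.card G := by exact_mod_cast h3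
    have h7 : (Nat.card M : ℝ) * M.index ≤ Nat.card M * (2 / δ) := by
      rw [h6, mul_div_assoc', le_div_iff₀ hδ]
      linarith
    have h8 : (M.index : ℝ) ≤ t := (le_of_mul_le_mul_left h7 h4).trans ht
    exact_mod_cast h8
  -- the number of generators
  have hrG : Group.rank G ≤ k := by
    have h1 : Subgroup.closure ((univ.image s : Finset G) : Set G) = ⊤ := by
      rw [coe_image, coe_univ, Set.image_univ]; exact hs
    refine (Group.rank_le h1).trans ((card_image_le).trans ?_)
    rw [card_univ, Fintype.card_fin]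
  have hrM : Group.rank M ≤ t * k :=
    (Subgroup.rank_le_index_mul_rank M).trans (Nat.mul_le_mul hidx hrG)
  have hcent := index_centralizer_le M (T t j) (t * k) (T_pos ht0 j) hMle hrM
  refine ⟨M ⊓ Subgroup.centralizer (M : Set G), inferInstance, ?_, ?_⟩
  · intro a ha b hb
    have h1 := (Subgroup.mem_inf.1 hb).2
    rw [Subgroup.mem_centralizer_iff] at h1
    exact h1 a (Subgroup.mem_inf.1 ha).1
  · refine Subgroup.index_inf_le.trans (Nat.mul_le_mul hidx (hcent.trans ?_))
    exact Nat.pow_le_pow_left (T_mono ht0 hj) _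

end Pool.Agent.H81.NF
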