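import Pool.Agent.H81.NF.Gen

set_option autoImplicit false

/-!
# Many square roots and the structure of the group without the condition `(*)`

`many_roots_gen`: for `N = 4, 5` some power of some `s i` other than `1` has at least
`5 |G| / 2592 - max d 0` square roots, `d = quadInv s`. `structure_gen`: if `d ≤ |G| / 1100`, `G` has an
abelian normal subgroup of bounded index which is inverted by an element `x`, `x ^ 2 ≠ 1`.
-/

namespace Pool.Agent.H81.NF

open Finset Pool.Agent.H82.CO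

/-- A power of some `s i` has many square roots. -/
theorem many_roots_gen {G : Type} [Group G] [Fintype G] {N : ℕ} (s : Fin N → G)
    (hs : ∀ i, s i ≠ 1) (hN : N = 4 ∨ N = 5)
    (hT : N = 4 → 5 / 1296 * (Nat.card G : ℝ) - 1 ≤ (quadInv s + extInv s).re) :
    ∃ i, ∃ k : ℕ, s i ^ k ≠ 1 ∧
      5 / 2592 * (Nat.card G : ℝ) - max (quadInv s).re 0 ≤ rt (s i ^ k) := by
  by_contra hne
  push Not at hne
  have hN4 : 4 ≤ N := by omega
  obtain ⟨r, hr⟩ : ∃ r : ℝ, r = 5 / 2592 * (Nat.card G : ℝ) - max (quadInv s).re 0 := ⟨_, rfl⟩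
  have h0 := hne ⟨0, by omega⟩ 1 (by rw [pow_one]; exact hs _)
  rw [← hr] at hne h0
  have hr0 : 0 < r := lt_of_le_of_lt (Pool.Agent.H82.SQ.rt_nonneg _) h0
  have h1 := Pool.Agent.H82.SQ.rho_lt s hs (by omega) hr0 hne
  have hm1 := le_max_left (quadInv s).re 0
  have hm2 := le_max_right (quadInv s).re 0
  have hn : (0 : ℝ) ≤ Nat.card G := Nat.cast_nonneg _
  rcases hN with h4 | h5
  · have h2 := Pool.Agent.H82.SQ.two_quadInv_ge s hs hN4 (hT h4)
    have hN4 : (N : ℝ) = 4 := by rw [h4]; norm_num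
    rw [hN4] at h1
    linarith
  · subst h5
    have h2 := Pool.Agent.H82.SQ.two_quadInv_ge s hs hN4 (E := (Nat.card G : ℝ) / 16) (by
      have := tensor_five s hs
      linarith)
    push_cast at h1
    linarith

/-- The structure theorem for `d ≤ |G| / 1100`. -/
theorem structure_gen : ∃ B : ℕ, ∀ (G : Type) [Group G] [Fintype G] (N : ℕ) (_hN : N = 4 ∨ N = 5)
    (s : Fin N → G) (_hs : ∀ i, s i ≠ 1) (_hna : ∃ a b : G, a * b ≠ b * a)
    (_hprod : (List.ofFn s).prod = 1) (_hgen : Subgroup.closure (Set.range s) = ⊤)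
    (_hg : 1 < genus s) (_hd : (quadInv s).re ≤ 1 / 1100 * (Nat.card G : ℝ)),
    ∃ A : Subgroup G, A.Normal ∧ (∀ a ∈ A, ∀ b ∈ A, a * b = b * a) ∧ A.index ≤ B ∧
      ∃ x : G, x ^ 2 ≠ 1 ∧ ∀ a ∈ A, x * a * x⁻¹ = a⁻¹ := by
  obtain ⟨B4, h4⟩ := structure_roots 4 (1 / 1040) (by norm_num)
  obtain ⟨B5, h5⟩ := structure_roots 5 (1 / 1040) (by norm_num)
  refine ⟨max B4 B5, fun G _ _ N hN s hs hna hprod hgen hg hd => ?_⟩
  have hn : (0 : ℝ) ≤ Nat.card G := Nat.cast_nonneg _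
  have hT : N = 4 → 5 / 1296 * (Nat.card G : ℝ) - 1 ≤ (quadInv s + extInv s).re := by
    intro hN4
    subst hN4
    exact Pool.Agent.H54.SQ.tensor_ge s hs hna hprod hgen hg
  obtain ⟨i, k, hk1, hroot⟩ := many_roots_gen s hs hN hT
  have hroot' : 1 / 1040 * (Nat.card G : ℝ) ≤ rt (s i ^ k) := by
    have hmax : max (quadInv s).re 0 ≤ 1 / 1100 * (Nat.card G : ℝ) :=
      max_le hd (by positivity)
    linarith
  rcases hN with h | h
  · subst h
    obtain ⟨A, h1, h2, h3, x, h6, h7⟩ := h4 G s _ hgen hroot'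
    exact ⟨A, h1, h2, h3.trans (le_max_left _ _), x, by rw [h6]; exact hk1, h7⟩
  · subst h
    obtain ⟨A, h1, h2, h3, x, h6, h7⟩ := h5 G s _ hgen hroot'
    exact ⟨A, h1, h2, h3.trans (le_max_right _ _), x, by rw [h6]; exact hk1, h7⟩

end Pool.Agent.H81.NF
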