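import Pool.Agent.H11.GQ.Main
import Pool.Agent.H81.NF.Roots

set_option autoImplicit false

/-!
# The quotient of genus one without the condition `(*)`

The theorem `Pool.Agent.H11.GQ.main` (helper11) with `d ≤ ε |G|` in place of `d ≤ N - 3`. The proof is
the one of helper11.
-/

namespace Pool.Agent.H81.NF

open Finset Module Pool.Agent.H82.CO
open Pool.Agent.H11.GQ

/-- If `N = 4, 5` and `d ≤ ε |G|`, `G` has a normal subgroup `K` of bounded order with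
`nuK s K ≤ 2`. -/
theorem quo_gen : ∃ (B : ℕ) (ε : ℝ), 0 < ε ∧ ε ≤ 1 / 1100 ∧
    ∀ (G : Type) [Group G] [Fintype G] (N : ℕ) (_hN : N = 4 ∨ N = 5)
    (s : Fin N → G) (_hs : ∀ i, s i ≠ 1) (_hna : ∃ a b : G, a * b ≠ b * a)
    (_hprod : (List.ofFn s).prod = 1) (_hgen : Subgroup.closure (Set.range s) = ⊤)
    (_hg : 1 < genus s) (_hd : (quadInv s).re ≤ ε * (Nat.card G : ℝ)),
    ∃ (K : Subgroup G) (_ : K.Normal), Nat.card K ≤ B ∧ nuK s K ≤ 2 := by
  obtain ⟨e, he⟩ : ∃ e : ℕ, e = 420000 := ⟨_, rfl⟩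
  have he0 : 0 < e := by omega
  have heR : (e : ℝ) = 420000 := by rw [he]; norm_num
  obtain ⟨b, hb⟩ : ∃ b : ℕ, b = beta e ^ e := ⟨_, rfl⟩
  have hb0 : (0 : ℝ) ≤ b := Nat.cast_nonneg b
  obtain ⟨ε, hε⟩ : ∃ ε : ℝ, ε = 1 / (336000 * (b + 1)) := ⟨_, rfl⟩
  have hε0 : 0 < ε := by rw [hε]; positivity
  have hε1 : ε ≤ 1 / 1100 := by
    rw [hε]
    apply one_div_le_one_div_of_le (by norm_num)
    linarith
  have hε2 : 2 * b * ε < 1 / 168000 := by
    rw [hε, mul_one_div, div_lt_div_iff₀ (by positivity) (by norm_num)]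
    linarith
  refine ⟨b, ε, hε0, hε1, fun G _ _ N hN s hs hna hprod hgen hg hd => ?_⟩
  have hnpos : 0 < Nat.card G := Nat.card_pos
  have hn0' : (0 : ℝ) < Nat.card G := by exact_mod_cast hnpos
  have hNR : (N : ℝ) ≤ 5 := by
    have : N ≤ 5 := by omega
    exact_mod_cast this
  have hT : N = 4 → 5 / 1296 * (Nat.card G : ℝ) - 1 ≤ (quadInv s + extInv s).re := by
    intro hN4
    subst hN4
    exact Pool.Agent.H54.SQ.tensor_ge s hs hna hprod hgen hg
  obtain ⟨i, k, -, hroot⟩ := many_roots_gen s hs hN hT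
  obtain ⟨c, hc⟩ : ∃ c, c = s i ^ k := ⟨_, rfl⟩
  rw [← hc] at hroot
  have hroot' : 1 / 1000 * (Nat.card G : ℝ) ≤ rt c := by
    have h1 : max (quadInv s).re 0 ≤ 1 / 1100 * (Nat.card G : ℝ) :=
      max_le (hd.trans (mul_le_mul_of_nonneg_right hε1 hn0'.le)) (by positivity)
    linarith
  obtain ⟨K, hK, hcard, hD⟩ := exists_max (G := G) e he0
  have hcK : c ∈ K := by
    by_contra hcK
    have h1 := hD c hcK
    have h2 := rt_le_rk K c
    rw [heR] at h1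
    linarith
  have hrk : 1 / 1000 * (Nat.card G : ℝ) ≤ rk K 1 := by
    rw [← rk_of_mem K hcK]
    exact hroot'.trans (rt_le_rk K c)
  refine ⟨K, hK, ?_, ?_⟩
  · rw [← hb] at hcard
    omega
  by_contra hcon
  push Not at hcon
  have hgap : 2 + 1 / 42 ≤ nuK s K :=
    gap (by omega) (fun i => orderOf (QuotientGroup.mk (s i) : G ⧸ K)) (fun i => orderOf_pos _) hcon
  have hkey := key s hprod hgen K (1 / 420000) (by norm_num) (by
    intro c hc
    have h1 := hD c hc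
    rw [heR] at h1
    linarith)
  rw [← hb] at hcard
  have hcR : (Nat.card K : ℝ) ≤ b := by exact_mod_cast hcard
  obtain ⟨n, hn'⟩ : ∃ n : ℝ, n = Nat.card G := ⟨_, rfl⟩
  obtain ⟨κ, hκ⟩ : ∃ κ : ℝ, κ = Nat.card K := ⟨_, rfl⟩
  obtain ⟨r, hr⟩ : ∃ r : ℝ, r = rk K 1 := ⟨_, rfl⟩
  obtain ⟨v, hv⟩ : ∃ v : ℝ, v = nuK s K := ⟨_, rfl⟩
  obtain ⟨d, hd'⟩ : ∃ d : ℝ, d = (quadInv s).re := ⟨_, rfl⟩
  rw [← hn', ← hκ, ← hr, ← hv, ← hd'] at hkey
  rw [← hn'] at hn0'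
  rw [← hn', ← hr] at hrk
  rw [← hv] at hgap
  rw [← hd', ← hn'] at hd
  rw [← hκ] at hcR
  have hκ0 : 0 ≤ κ := by rw [hκ]; exact Nat.cast_nonneg _
  have h1 : n / 42000 ≤ r * (v - 2) := by
    have h2 : 1 / 1000 * n * (1 / 42) ≤ r * (v - 2) :=
      mul_le_mul hrk (by linarith) (by norm_num) (by linarith)
    linarith
  have h2 : 1 / 420000 * n * N ≤ n / 84000 := by
    have := mul_le_mul_of_nonneg_left hNR (by linarith : (0 : ℝ) ≤ 1 / 420000 * n)
    linarith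
  have h3 : n / 84000 ≤ r * (v - 2) - 1 / 420000 * n * N := by linarith
  have h4 : n / 2 * (n / 84000) ≤ n / 2 * (r * (v - 2) - 1 / 420000 * n * N) :=
    mul_le_mul_of_nonneg_left h3 (by linarith)
  have h5 : 2 * (n * κ) * d ≤ 2 * (n * κ) * (ε * n) := mul_le_mul_of_nonneg_left hd (by positivity)
  have h6 : n * κ ≤ n * b := mul_le_mul_of_nonneg_left hcR hn0'.le
  have h7 : 2 * (n * κ) * (ε * n) ≤ 2 * (n * b) * (ε * n) :=
    mul_le_mul_of_nonneg_right (by linarith) (by positivity)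
  have h8 : 0 ≤ n * κ := by positivity
  have h9 : n * (n / 168000) ≤ n * (2 * b * ε * n) := by nlinarith
  have h10 := le_of_mul_le_mul_left h9 hn0'
  have h11 : 2 * b * ε * n < 1 / 168000 * n := mul_lt_mul_of_pos_right hε2 hn0'
  linarith

end Pool.Agent.H81.NF
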